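import Pool.Agent.J6H17.RF.StmN
import Pool.Agent.J6H17.RF.Fin
import Pool.Agent.H620R2.Gauge.U1

/-!
# RFN-PS: the set `W` is in polynomial space
-/

set_option autoImplicit false

namespace Pool.Agent.J6H22.RFN

open Pool.Agent.NPC Pool.Agent.H628R3.RO Pool.Agent.J6H17.RF
open Pool.Agent.H620R2.Gauge (IsPSPACE)

/-! ### the two formalizations of oracle algorithms -/

/-- the same algorithm, in the other formalization -/
def tra (M : Alg) : Pool.Agent.H620R2.Gauge.Alg := ⟨M.D, M.poly, M.p⟩

theorem tra_run (M : Alg) (B : Oracle) (x : List Bool) : ∀ (n : ℕ) (a : List Bool),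
    (tra M).run B x n a = M.run B x n a := by
  intro n
  induction n with
  | zero => intro a; rfl
  | succ n ih =>
    intro a
    have e : (tra M).D = M.D := rfl
    rcases h : M.D (pairBits x a) with _ | ⟨b, q⟩
    · simp only [Pool.Agent.H620R2.Gauge.Alg.run, Alg.run, e, h]
    · cases b
      · simp only [Pool.Agent.H620R2.Gauge.Alg.run, Alg.run, e, h, ih]
      · simp only [Pool.Agent.H620R2.Gauge.Alg.run, Alg.run, e, h]

theorem isFP_tra {B : Oracle} {F : List Bool → List Bool} (h : IsFP B F) :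
    Pool.Agent.H620R2.Gauge.IsFP B F := by
  obtain ⟨M, hM⟩ := h
  refine ⟨tra M, fun x => ?_⟩
  rw [← hM x]
  exact tra_run M B x _ _

/-! ### trees -/

/-- the tree of an implication -/
def tImp (a b : T) : T := T.node (toT (4 : ℕ)) (T.node a b)

/-- the tree of a universal formula -/
def tAll (x : ℕ) (a : T) : T := T.node (toT (5 : ℕ)) (T.node (toT x) a)

/-- the tree of `in4 φ e u x z`, computed from that of `φ` -/
def tIn4 (t : T) (e u x z : ℕ) : T :=
  tAll 0 (tImp (Fm.eq (.var 0) (num e)).code (tAll 1 (tImp (Fm.eq (.var 1) (num u)).code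
    (tAll 2 (tImp (Fm.eq (.var 2) (num x)).code (tAll 3 (tImp (Fm.eq (.var 3) (num z)).code
      t)))))))

/-- the tree of the instance -/
def tPhi (μ : Fm) (t : T) (v : ℕ × ℕ × ℕ × ℕ) : T :=
  tImp (tIn4 t v.1 v.2.1 v.2.2.1 v.2.2.2) (at3 μ v.1 v.2.2.1 v.2.2.2).code

theorem tPhi_code (μ φ : Fm) (e u x z : ℕ) :
    tPhi μ φ.code (e, u, x, z) = ((in4 φ e u x z).imp (at3 μ e x z)).code := rfl

theorem inv_imp {φ : Fm} {a b : T} (h : φ.code = tImp a b) :
    ∃ φ₁ φ₂ : Fm, φ = φ₁.imp φ₂ ∧ φ₁.code = a ∧ φ₂.code = b := by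
  unfold tImp at h
  cases φ with
  | bot => simp [Fm.code] at h
  | eq s t =>
    simp only [Fm.code, T.node.injEq] at h
    exact absurd (tag_inj h.1) (by decide)
  | le s t =>
    simp only [Fm.code, T.node.injEq] at h
    exact absurd (tag_inj h.1) (by decide)
  | orc t =>
    simp only [Fm.code, T.node.injEq] at h
    exact absurd (tag_inj h.1) (by decide)
  | imp φ₁ φ₂ =>
    simp only [Fm.code, T.node.injEq] at h
    exact ⟨φ₁, φ₂, rfl, h.2.1, h.2.2⟩
  | all x φ =>
    simp only [Fm.code, T.node.injEq] at h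
    exact absurd (tag_inj h.1) (by decide)

theorem inv_all {φ : Fm} {y : ℕ} {a : T} (h : φ.code = tAll y a) :
    ∃ φ₁ : Fm, φ = Fm.all y φ₁ ∧ φ₁.code = a := by
  unfold tAll at h
  cases φ with
  | bot => simp [Fm.code] at h
  | eq s t =>
    simp only [Fm.code, T.node.injEq] at h
    exact absurd (tag_inj h.1) (by decide)
  | le s t =>
    simp only [Fm.code, T.node.injEq] at h
    exact absurd (tag_inj h.1) (by decide)
  | orc t =>
    simp only [Fm.code, T.node.injEq] at h
    exact absurd (tag_inj h.1) (by decide)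
  | imp φ₁ φ₂ =>
    simp only [Fm.code, T.node.injEq] at h
    exact absurd (tag_inj h.1) (by decide)
  | all x φ =>
    simp only [Fm.code, T.node.injEq] at h
    obtain ⟨_, h1, h2⟩ := h
    have h3 : x = y := tag_inj h1
    subst h3
    exact ⟨φ, rfl, h2⟩

theorem inv_phi {μ φ : Fm} {t : T} {v : ℕ × ℕ × ℕ × ℕ} (h : φ.code = tPhi μ t v) :
    ∃ ψ : Fm, ψ.code = t := by
  unfold tPhi tIn4 at h
  obtain ⟨φ₁, _, _, h1, _⟩ := inv_imp h
  obtain ⟨φ₂, _, h2⟩ := inv_all h1
  obtain ⟨_, φ₃, _, _, h3⟩ := inv_imp h2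
  obtain ⟨φ₄, _, h4⟩ := inv_all h3
  obtain ⟨_, φ₅, _, _, h5⟩ := inv_imp h4
  obtain ⟨φ₆, _, h6⟩ := inv_all h5
  obtain ⟨_, φ₇, _, _, h7⟩ := inv_imp h6
  obtain ⟨φ₈, _, h8⟩ := inv_all h7
  obtain ⟨_, φ₉, _, _, h9⟩ := inv_imp h8
  exact ⟨φ₉, h9⟩

theorem poly_tImp {α : Type} [TEnc α] {a b : α → T} (ha : Poly a) (hb : Poly b) :
    Poly (fun s => tImp (a s) (b s)) :=
  Poly.toT' (Poly.pair (NPC.Poly.const (4 : ℕ)) (Poly.pair ha hb))

theorem poly_tAll {α : Type} [TEnc α] {a : α → T} (x : ℕ) (ha : Poly a) :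
    Poly (fun s => tAll x (a s)) :=
  Poly.toT' (Poly.pair (NPC.Poly.const (5 : ℕ)) (Poly.pair (NPC.Poly.const x) ha))

section
variable (hN : S_NUM) (hSP : S_SPOLY)

include hN hSP in
theorem poly_eqn {α : Type} [TEnc α] (x : ℕ) {e : α → ℕ} (he : Poly e) :
    Poly (fun s => (Fm.eq (.var x) (num (e s))).code) :=
  Poly.toT' (hSP.2.2.2.1 α (fun _ => Tm.var x) (fun s => num (e s)) (NPC.Poly.const _)
    (hN.1.comp he))

include hN hSP in
theorem poly_tPhi (μ : Fm) {α : Type} [TEnc α] {t : α → T} {v : α → ℕ × ℕ × ℕ × ℕ}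
    (ht : Poly t) (hv : Poly v) : Poly (fun s => tPhi μ (t s) (v s)) := by
  have h1 := Poly.fst hv
  have h2 := Poly.fst (Poly.snd hv)
  have h3 := Poly.fst (Poly.snd (Poly.snd hv))
  have h4 := Poly.snd (Poly.snd (Poly.snd hv))
  unfold tPhi tIn4
  exact poly_tImp (poly_tAll 0 (poly_tImp (poly_eqn hN hSP 0 h1) (poly_tAll 1
    (poly_tImp (poly_eqn hN hSP 1 h2) (poly_tAll 2 (poly_tImp (poly_eqn hN hSP 2 h3)
      (poly_tAll 3 (poly_tImp (poly_eqn hN hSP 3 h4) ht))))))))
    (poly_at3 hN hSP μ h1 h3 h4).toT'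

end

/-! ### the parts of the strings -/

/-- the tree of a string -/
def tr (y : List Bool) : T := (parse (unpair y).1).getD T.nil

/-- the unary number `n` -/
def nn (y : List Bool) : List Bool := (unpair (unpair y).2).1

/-- the unary number `m` -/
def mm (y : List Bool) : List Bool := (unpair (unpair y).2).2

/-- the quadruple -/
def quad (v : List Bool) : ℕ × ℕ × ℕ × ℕ := (unbits (ℕ × ℕ × ℕ × ℕ) v).getD (0, 0, 0, 0)

theorem quad_bits (v : ℕ × ℕ × ℕ × ℕ) : quad (bits v) = v := by
  unfold quad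
  rw [unbits_bits, Option.getD_some]

theorem poly_tr : Poly tr := poly_getD (poly_parse.comp (Poly.fst poly_unpair)) T.nil

theorem poly_nn : Poly nn := Poly.fst (poly_unpair.comp (Poly.snd poly_unpair))

theorem poly_mm : Poly mm := Poly.snd (poly_unpair.comp (Poly.snd poly_unpair))

theorem poly_quad : Poly quad := poly_getD poly_unbits _

/-- `y` has the correct form -/
def shape (y : List Bool) : Bool :=
  decide (y = pairBits (tr y).enc (pairBits ((nn y).map fun _ => true) ((mm y).map fun _ => true)))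

/-- `v` is the code of a quadruple of numbers of size at most `n` -/
def good (v n : List Bool) : Bool :=
  decide (v = bits (quad v)) && (decide ((quad v).1.bits.length ≤ n.length) &&
    (decide ((quad v).2.1.bits.length ≤ n.length) &&
      (decide ((quad v).2.2.1.bits.length ≤ n.length) &&
        decide ((quad v).2.2.2.bits.length ≤ n.length))))

theorem good_iff {v n : List Bool} : good v n = true ↔ ∃ e u x z : ℕ, v = bits (e, u, x, z) ∧
    e.size ≤ n.length ∧ u.size ≤ n.length ∧ x.size ≤ n.length ∧ z.size ≤ n.length := by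
  unfold good
  simp only [Bool.and_eq_true, decide_eq_true_eq, Nat.size_eq_bits_len]
  constructor
  · rintro ⟨h1, h2, h3, h4, h5⟩
    exact ⟨_, _, _, _, h1, h2, h3, h4, h5⟩
  · rintro ⟨e, u, x, z, rfl, h2, h3, h4, h5⟩
    rw [quad_bits]
    exact ⟨rfl, h2, h3, h4, h5⟩

/-- the test of the innermost part; `s = (w, (v, y))`, `c` is the verdict on `w` -/
def tst (μ : Fm) (s c : List Bool) : Bool :=
  shape (unpair (unpair s).2).2 && (!(good (unpair (unpair s).2).1 (nn (unpair (unpair s).2).2)) ||
    (decide (c = [true]) && decide ((trees (unpair s).1).head? =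
      some (tPhi μ (tr (unpair (unpair s).2).2) (quad (unpair (unpair s).2).1)))))

theorem poly_shape : Poly shape := by
  have h1 : Poly (fun y : List Bool => (nn y).map fun _ => true) :=
    Pool.Agent.NPC.Poly.map poly_nn (NPC.Poly.const _)
  have h2 : Poly (fun y : List Bool => (mm y).map fun _ => true) :=
    Pool.Agent.NPC.Poly.map poly_mm (NPC.Poly.const _)
  exact Poly.decide_eq Poly.id (Pool.Agent.H622R2.poly_pairBits (poly_enc.comp poly_tr)
    (Pool.Agent.H622R2.poly_pairBits h1 h2))

theorem poly_good : Poly (fun p : List Bool × List Bool => good p.1 p.2) := by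
  have hq : Poly (fun p : List Bool × List Bool => quad p.1) := poly_quad.comp (Poly.fst Poly.id)
  have hn : Poly (fun p : List Bool × List Bool => p.2.length) := Poly.length (Poly.snd Poly.id)
  have key : ∀ f : List Bool × List Bool → ℕ, Poly f →
      Poly (fun p => decide ((f p).bits.length ≤ p.2.length)) := fun f hf =>
    Poly.decide_le (Poly.length (Poly.natBits hf)) hn
  unfold good
  refine Poly.and (Poly.decide_eq (Poly.fst Poly.id) (poly_bits hq)) (Poly.and ?_ (Poly.and ?_
    (Poly.and ?_ ?_)))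
  · exact key _ (Poly.fst hq)
  · exact key _ (Poly.fst (Poly.snd hq))
  · exact key _ (Poly.fst (Poly.snd (Poly.snd hq)))
  · exact key _ (Poly.snd (Poly.snd (Poly.snd hq)))

theorem poly_tst (hN : S_NUM) (hSP : S_SPOLY) (μ : Fm) :
    Poly (fun p : List Bool × List Bool => tst μ p.1 p.2) := by
  have hs : Poly (fun p : List Bool × List Bool => unpair p.1) :=
    poly_unpair.comp (Poly.fst Poly.id)
  have hvy : Poly (fun p : List Bool × List Bool => unpair (unpair p.1).2) :=
    poly_unpair.comp (Poly.snd hs)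
  have hy : Poly (fun p : List Bool × List Bool => (unpair (unpair p.1).2).2) := Poly.snd hvy
  have hv : Poly (fun p : List Bool × List Bool => (unpair (unpair p.1).2).1) := Poly.fst hvy
  unfold tst
  refine Poly.and (poly_shape.comp hy) (Poly.or (Poly.not ?_) (Poly.and ?_ ?_))
  · exact poly_good.comp (f := fun p : List Bool × List Bool =>
      ((unpair (unpair p.1).2).1, nn (unpair (unpair p.1).2).2))
      (Poly.pair hv (poly_nn.comp hy))
  · exact Poly.decide_eq (Poly.snd Poly.id) (NPC.Poly.const _)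
  · refine Poly.decide_eq (Poly.head? (poly_trees.comp (Poly.fst hs))) (Poly.some ?_)
    exact poly_tPhi hN hSP μ (poly_tr.comp hy) (poly_quad.comp hv)

/-- the bound for the length of the codes of the quadruples -/
noncomputable def bnd (y : List Bool) : ℕ := (Polynomial.C 16 * Polynomial.X + Polynomial.C 10).eval (nn y).length

theorem length_quad {e u x z N : ℕ} (h1 : e.size ≤ N) (h2 : u.size ≤ N) (h3 : x.size ≤ N)
    (h4 : z.size ≤ N) : (bits (e, u, x, z)).length ≤
      (Polynomial.C 16 * Polynomial.X + Polynomial.C 10).eval N := by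
  rw [bits_length, sz_pair, sz_pair, sz_pair]
  have e1 := sz_nat_le e
  have e2 := sz_nat_le u
  have e3 := sz_nat_le x
  have e4 := sz_nat_le z
  simp only [Polynomial.eval_add, Polynomial.eval_mul, Polynomial.eval_C, Polynomial.eval_X]
  omega

theorem tr_trp (Pr : Fm) (n m : ℕ) : tr (trp Pr n m) = Pr.code := by
  unfold tr trp
  rw [unpair_pairBits]
  have : parse (bits Pr) = some Pr.code := parse_enc _
  rw [this]
  rfl

theorem nn_trp (Pr : Fm) (n m : ℕ) : nn (trp Pr n m) = List.replicate n true := by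
  unfold nn trp
  rw [unpair_pairBits, unpair_pairBits]

theorem mm_trp (Pr : Fm) (n m : ℕ) : mm (trp Pr n m) = List.replicate m true := by
  unfold mm trp
  rw [unpair_pairBits, unpair_pairBits]

theorem shape_trp (Pr : Fm) (n m : ℕ) : shape (trp Pr n m) = true := by
  unfold shape
  rw [decide_eq_true_eq, tr_trp, nn_trp, mm_trp, List.map_replicate, List.map_replicate]
  rfl

theorem trp_of_shape {y : List Bool} (h : shape y = true) {Pr : Fm} (hPr : Pr.code = tr y) :
    y = trp Pr (nn y).length (mm y).length := by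
  unfold shape at h
  rw [decide_eq_true_eq] at h
  have h1 : (nn y).map (fun _ => true) = List.replicate (nn y).length true := by
    rw [List.map_const']
  have h2 : (mm y).map (fun _ => true) = List.replicate (mm y).length true := by
    rw [List.map_const']
  rw [h1, h2, ← hPr] at h
  exact h

/-- RFN-PS -/
theorem main (h1 : S_NUM) (h2 : S_SPOLY) (h3 : S_CHK) : S_NPS := by
  intro A B μ hB
  obtain ⟨C, hC, hCB⟩ := h3 A B hB
  -- the innermost set
  have hV : IsFP A (fun s => if tst μ s (C (unpair s).1) = true then [true] else []) := by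
    have e1 : IsFP A (fun s => C (unpair s).1) :=
      IsFP.comp hC (IsFP.of_poly (Poly.fst poly_unpair))
    exact IsFP.seq (A := A) e1 (IsFP.of_poly (A := A) Poly.id) (φ := fun p => p.1)
      (ψ := fun p => if tst μ p.1 p.2.1 = true then [true] else []) (Poly.fst Poly.id)
      (Poly.ite (Poly.decide_bool ((poly_tst h1 h2 μ).comp
        (f := fun p : List Bool × List Bool × List Bool => (p.1, p.2.1))
        (Poly.pair (Poly.fst Poly.id) (Poly.fst (Poly.snd Poly.id)))))
        (NPC.Poly.const _) (NPC.Poly.const _))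
  have L1 : IsPSPACE A {s | tst μ s (C (unpair s).1) = true} := by
    refine Pool.Agent.H620R2.Gauge.IsP.isPSPACE ⟨_, isFP_tra hV, fun s => ?_⟩
    change tst μ s (C (unpair s).1) = true ↔ _
    by_cases h : tst μ s (C (unpair s).1) = true
    · rw [if_pos h]
      exact ⟨fun _ => rfl, fun _ => h⟩
    · rw [if_neg h]
      exact ⟨fun h' => absurd h' h, fun h' => by simp at h'⟩
  have hβ1 : UPoly (fun u : List Bool => (mm (unpair u).2).length) :=
    UPoly.length (poly_mm.comp (Poly.snd poly_unpair))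
  have L2 := L1.exists_short hβ1
  have hβ2 : UPoly bnd := UPoly.eval (UPoly.length poly_nn) _
  have L3 := (L2.compl.exists_short hβ2).compl
  have key : ∀ y, y ∈ ({y | ∃ w : List Bool, w.length ≤ bnd y ∧ pairBits w y ∈
      ({u | ∃ w : List Bool, w.length ≤ (mm (unpair u).2).length ∧ pairBits w u ∈
        {s | tst μ s (C (unpair s).1) = true}} : Set (List Bool))ᶜ} : Set (List Bool))ᶜ ↔
      ∀ v : List Bool, v.length ≤ bnd y → ∃ w : List Bool,
        w.length ≤ (mm (unpair (pairBits v y)).2).length ∧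
          tst μ (pairBits w (pairBits v y)) (C (unpair (pairBits w (pairBits v y))).1) = true := by
    intro y
    constructor
    · intro h v hv
      by_contra hc
      exact h ⟨v, hv, hc⟩
    · rintro h ⟨v, hv, hc⟩
      exact hc (h v hv)
  convert L3 using 1
  ext y
  rw [key]
  constructor
  · rintro ⟨Pr, n, m, rfl, hy⟩ v _
    by_cases hg : good v (nn (trp Pr n m)) = true
    · obtain ⟨e, u, x, z, rfl, g1, g2, g3, g4⟩ := good_iff.1 hg
      rw [nn_trp, List.length_replicate] at g1 g2 g3 g4
      obtain ⟨π, hπ, hlen⟩ := hy e u x z g1 g2 g3 g4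
      refine ⟨bits ((in4 Pr e u x z).imp (at3 μ e x z) :: π), ?_, ?_⟩
      · rw [unpair_pairBits, mm_trp, List.length_replicate]
        exact hlen
      · unfold tst
        simp only [unpair_pairBits]
        rw [shape_trp, tr_trp, quad_bits, trees_bits, Bool.true_and, Bool.or_eq_true,
          Bool.and_eq_true, decide_eq_true_eq, decide_eq_true_eq]
        right
        exact ⟨(hCB _).2 ⟨_, rfl, hπ⟩, by rw [List.map_cons, List.head?_cons, tPhi_code]⟩
    · refine ⟨[], by simp, ?_⟩
      unfold tst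
      simp only [unpair_pairBits]
      rw [shape_trp, Bool.true_and, Bool.or_eq_true]
      left
      rw [Bool.not_eq_true] at hg
      rw [hg]
      rfl
  · intro hy
    -- instances
    have inst : ∀ e u x z : ℕ, e.size ≤ (nn y).length → u.size ≤ (nn y).length →
        x.size ≤ (nn y).length → z.size ≤ (nn y).length → shape y = true ∧ ∃ φ π,
          φ.code = tPhi μ (tr y) (e, u, x, z) ∧ IsProof B (φ :: π) ∧
            (bits (φ :: π)).length ≤ (mm y).length := by
      intro e u x z g1 g2 g3 g4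
      obtain ⟨w, hw, ht⟩ := hy (bits (e, u, x, z)) (length_quad g1 g2 g3 g4)
      rw [unpair_pairBits] at hw
      unfold tst at ht
      simp only [unpair_pairBits] at ht
      rw [Bool.and_eq_true] at ht
      obtain ⟨ht1, ht2⟩ := ht
      have hg : good (bits (e, u, x, z)) (nn y) = true :=
        good_iff.2 ⟨e, u, x, z, rfl, g1, g2, g3, g4⟩
      rw [hg, Bool.not_true, Bool.false_or, Bool.and_eq_true, decide_eq_true_eq,
        decide_eq_true_eq, quad_bits] at ht2
      obtain ⟨ht2, ht3⟩ := ht2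
      obtain ⟨π, rfl, hπ⟩ := (hCB w).1 ht2
      rw [trees_bits] at ht3
      cases π with
      | nil => simp at ht3
      | cons φ π =>
        rw [List.map_cons, List.head?_cons, Option.some.injEq] at ht3
        exact ⟨ht1, φ, π, ht3, hπ, hw⟩
    obtain ⟨hsh, φ₀, _, h0, _, _⟩ := inst 0 0 0 0 (by simp) (by simp) (by simp) (by simp)
    obtain ⟨Pr, hPr⟩ := inv_phi h0
    refine ⟨Pr, (nn y).length, (mm y).length, trp_of_shape hsh hPr, ?_⟩
    intro e u x z g1 g2 g3 g4
    obtain ⟨_, φ, π, k1, k2, k3⟩ := inst e u x z g1 g2 g3 g4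
    rw [← hPr, tPhi_code] at k1
    have k4 := Fm.code_injective k1
    subst k4
    exact ⟨π, k2, k3⟩

end Pool.Agent.J6H22.RFN
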